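import Pool.Agent.Helper8.Sey.Goals

/-!
# Basic facts on the process (project SEY)
-/

namespace Pool.Agent.Helper8.Sey

open Pool.Agent.Helper41.Girth4 (Pr)

theorem near_symm {K a b : ℕ} (h : near K a b) : near K b a := by
  unfold near at *
  omega

theorem near_half {K a b : ℕ} (ha : a < 2 * K) (hb : b < 2 * K) (h : near (2 * K) a b) :
    near K (a / 2) (b / 2) := by
  unfold near at *
  omega

/-- There are at most three near parts. -/
theorem near_three (K a : ℕ) : ∃ S : Finset ℕ, S.card ≤ 3 ∧ ∀ b < K, near K a b → b ∈ S := by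
  by_cases h0 : a = 0
  · refine ⟨{0, 1, K - 1}, Finset.card_le_three, fun b hb h => ?_⟩
    unfold near at h
    simp only [Finset.mem_insert, Finset.mem_singleton]
    omega
  · by_cases h1 : a + 1 = K
    · refine ⟨{a, a - 1, 0}, Finset.card_le_three, fun b hb h => ?_⟩
      unfold near at h
      simp only [Finset.mem_insert, Finset.mem_singleton]
      omega
    · refine ⟨{a, a + 1, a - 1}, Finset.card_le_three, fun b hb h => ?_⟩
      unfold near at h
      simp only [Finset.mem_insert, Finset.mem_singleton]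
      omega

namespace Sys

variable {V : Type} (P : Sys V)

theorem q_def : P.q = P.D + P.J := rfl

theorem N_def : P.N = P.K * P.q := rfl

theorem J_lt_q : P.J < P.q := by have := P.hD; unfold q; omega

theorem q_pos : 0 < P.q := lt_of_le_of_lt (Nat.zero_le _) P.J_lt_q

theorem q_le_N : P.q ≤ P.N := Nat.le_mul_of_pos_left _ P.hK

theorem J_lt_N : P.J < P.N := P.J_lt_q.trans_le P.q_le_N

theorem two_lt_N : 2 < P.N := lt_of_le_of_lt P.hJ P.J_lt_N

theorem part_lt (v : V) : P.part v < P.K := P.hnear.1 v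

theorem idx_lt {l : ℕ} (hl : l < P.K) (a : Fin P.q) : l * P.q + a < P.N := by
  have h1 : l + 1 ≤ P.K := hl
  have h2 : (l + 1) * P.q ≤ P.K * P.q := Nat.mul_le_mul_right _ h1
  have h3 := a.2
  rw [N_def]
  have h4 : (l + 1) * P.q = l * P.q + P.q := by ring
  omega

theorem cl_val {l : ℕ} (hl : l < P.K) (a : Fin P.q) : (P.cl l a).val = l * P.q + a := by
  unfold cl
  rw [ZMod.val_natCast, Nat.mod_eq_of_lt (P.idx_lt hl a)]

theorem cl_inj {l l' : ℕ} (hl : l < P.K) (hl' : l' < P.K) {a a' : Fin P.q}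
    (h : P.cl l a = P.cl l' a') : l = l' ∧ a = a' := by
  have h1 : l * P.q + a = l' * P.q + a' := by
    rw [← P.cl_val hl, ← P.cl_val hl', h]
  have hq := P.q_pos
  have h2 : (l * P.q + a) / P.q = l := by
    rw [mul_comm, Nat.mul_add_div hq, Nat.div_eq_of_lt a.2, add_zero]
  have h3 : (l' * P.q + a') / P.q = l' := by
    rw [mul_comm, Nat.mul_add_div hq, Nat.div_eq_of_lt a'.2, add_zero]
  have h4 : l = l' := by rw [← h2, h1, h3]
  refine ⟨h4, ?_⟩
  subst h4
  exact Fin.ext (by omega)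

theorem cl_surj (g : ZMod P.N) : ∃ l < P.K, ∃ a : Fin P.q, g = P.cl l a := by
  have hq := P.q_pos
  have h1 : g.val < P.K * P.q := ZMod.val_lt g
  refine ⟨g.val / P.q, (Nat.div_lt_iff_lt_mul hq).2 h1, ⟨g.val % P.q, Nat.mod_lt _ hq⟩, ?_⟩
  have h2 : g.val / P.q * P.q + g.val % P.q = g.val := Nat.div_add_mod' _ _
  unfold cl
  simp only [h2]
  exact (ZMod.natCast_zmod_val g).symm

/-- the next class, inside a part -/
theorem cl_succ (l : ℕ) (a : Fin P.q) (h : (a : ℕ) + 1 < P.q) :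
    P.cl l a + 1 = P.cl l ⟨a + 1, h⟩ := by
  unfold cl
  push_cast
  ring

/-- the next class of the last class of a part -/
theorem cl_succ' (l : ℕ) (a : Fin P.q) (h : (a : ℕ) + 1 = P.q) :
    P.cl l a + 1 = P.cl (l + 1) 0 := by
  unfold cl
  have : (l + 1) * P.q + ((0 : Fin P.q) : ℕ) = l * P.q + a + 1 := by
    rw [Fin.val_zero, add_zero, add_mul, one_mul]
    omega
  rw [this]
  push_cast
  ring

theorem cl_K : P.cl P.K 0 = P.cl 0 0 := by
  unfold cl
  rw [Fin.val_zero, zero_mul, add_zero, add_zero, ← N_def, ZMod.natCast_self, Nat.cast_zero]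

/-- classes `g - t` of a window: if `t ≤ a` -/
theorem cl_sub (l : ℕ) (a : Fin P.q) (t : ℕ) (h : t ≤ (a : ℕ)) :
    P.cl l a - (t : ZMod P.N) = P.cl l ⟨a - t, by have := a.2; omega⟩ := by
  unfold cl
  rw [sub_eq_iff_eq_add, ← Nat.cast_add]
  congr 1
  simp only
  omega

/-- classes `g - t` of a window: if `a < t ≤ q`, in the previous part -/
theorem cl_sub' (l : ℕ) (a : Fin P.q) (t : ℕ) (h : (a : ℕ) < t) (ht : t ≤ P.q) :
    P.cl (l + 1) a - (t : ZMod P.N) = P.cl l ⟨P.q + a - t, by have := a.2; omega⟩ := by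
  unfold cl
  rw [sub_eq_iff_eq_add, ← Nat.cast_add]
  congr 1
  simp only
  have : (l + 1) * P.q = l * P.q + P.q := by ring
  omega

theorem cl_zero_eq (a : Fin P.q) : P.cl 0 a = P.cl P.K a := by
  unfold cl
  rw [zero_mul, zero_add, ← N_def, Nat.cast_add, ZMod.natCast_self, zero_add]

/-- classes `g - t` of a window: if `a < t ≤ q`, for the first part -/
theorem cl_sub_zero (a : Fin P.q) (t : ℕ) (h : (a : ℕ) < t) (ht : t ≤ P.q) :
    P.cl 0 a - (t : ZMod P.N) = P.cl (P.K - 1) ⟨P.q + a - t, by have := a.2; omega⟩ := by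
  have h1 : P.K - 1 + 1 = P.K := by have := P.hK; omega
  rw [cl_zero_eq, ← P.cl_sub' (P.K - 1) a t h ht, h1]

/-- The part of the members of the class before a given one. -/
theorem cand (l : ℕ) (hl : l < P.K) (a : Fin P.q) : ∃ m < P.K, near P.K l m ∧
    ∀ (l' : ℕ) (b : Fin P.q), l' < P.K → P.cl l' b + 1 = P.cl l a → l' = m := by
  have hq := P.q_pos
  have hJ := P.hJ
  have hJq := P.J_lt_q
  have key : ∀ (m : ℕ) (b : Fin P.q), m < P.K → P.cl l a - 1 = P.cl m b →
      ∀ (l' : ℕ) (b' : Fin P.q), l' < P.K → P.cl l' b' + 1 = P.cl l a → l' = m := by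
    intro m b hm h1 l' b' hl' h2
    have h3 : P.cl l' b' = P.cl m b := by rw [← h1, ← h2]; ring
    exact (P.cl_inj hl' hm h3).1
  by_cases ha : 1 ≤ (a : ℕ)
  · have := P.cl_sub l a 1 ha
    rw [Nat.cast_one] at this
    exact ⟨l, hl, Or.inl rfl, key l _ hl this⟩
  · rcases Nat.eq_zero_or_pos l with h0 | h0
    · subst h0
      have := P.cl_sub_zero a 1 (by omega) (by omega)
      rw [Nat.cast_one] at this
      refine ⟨P.K - 1, by omega, ?_, key (P.K - 1) _ (by omega) this⟩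
      unfold near; omega
    · obtain ⟨l0, rfl⟩ : ∃ l0, l = l0 + 1 := ⟨l - 1, by omega⟩
      have := P.cl_sub' l0 a 1 (by omega) (by omega)
      rw [Nat.cast_one] at this
      refine ⟨l0, by omega, ?_, key l0 _ (by omega) this⟩
      unfold near; omega

theorem near_of_succ (ω : P.Om) (u v : V) (h : P.cls ω v = P.cls ω u + 1) :
    near P.K (P.part u) (P.part v) := by
  obtain ⟨m, hm, hn, hc⟩ := P.cand (P.part v) (P.part_lt v) (P.col ω v)
  have := hc (P.part u) (P.col ω u) (P.part_lt u) h.symm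
  rw [this]
  exact near_symm hn

/-- A vertex is in class `cl l a` iff its part is `l` and its colour is `a`. -/
theorem cls_eq_iff (ω : P.Om) (v : V) {l : ℕ} (hl : l < P.K) (a : Fin P.q) :
    P.cls ω v = P.cl l a ↔ P.part v = l ∧ P.col ω v = a := by
  constructor
  · intro h
    exact P.cl_inj (P.part_lt v) hl h
  · rintro ⟨h1, h2⟩
    unfold cls
    rw [h1, h2]

theorem colF_congr (ω : P.Om) (c c' : V → Fin P.q) (v : V)
    (h : ∀ u, P.H.Adj u v → P.part u = P.part v → P.κ u < P.κ v → c u = c' u) :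
    P.colF ω c v = P.colF ω c' v := by
  unfold colF
  congr 1
  funext a
  apply propext
  constructor
  · rintro ⟨u, h1, h2, h3, h4⟩
    exact ⟨u, h1, h2, h3, by rw [← h u h1 h2 h3]; exact h4⟩
  · rintro ⟨u, h1, h2, h3, h4⟩
    exact ⟨u, h1, h2, h3, by rw [h u h1 h2 h3]; exact h4⟩

/-- The iterates are stationary at `v` after `κ v + 1` rounds. -/
theorem iter_stat (ω : P.Om) (c0 : V → Fin P.q) (t t' : ℕ) (v : V) (h : P.κ v < t) (h' : P.κ v < t') :
    (P.colF ω)^[t] c0 v = (P.colF ω)^[t'] c0 v := by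
  induction t generalizing t' v with
  | zero => omega
  | succ t ih =>
    obtain ⟨s, rfl⟩ : ∃ s, t' = s + 1 := ⟨t' - 1, by omega⟩
    rw [Function.iterate_succ_apply', Function.iterate_succ_apply']
    apply P.colF_congr
    intro u _ _ hu
    exact ih s u (by omega) (by omega)

/-- `col` is a fixed point of `colF`. -/
theorem col_fix (ω : P.Om) : P.colF ω (P.col ω) = P.col ω := by
  funext v
  unfold col
  rw [← Function.iterate_succ_apply' (P.colF ω)]
  exact P.iter_stat ω _ _ _ v (by have := P.hκ v; omega) (by have := P.hκ v; omega)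

theorem col_eq (ω : P.Om) (v : V) : P.col ω v =
    pick (ω v).1 (fun a => ∃ u, P.H.Adj u v ∧ P.part u = P.part v ∧ P.κ u < P.κ v ∧
      P.col ω u = a) := by
  conv_lhs => rw [← P.col_fix ω]
  rfl

/-! ### The process -/

variable (R : ℕ → V → ZMod P.N → ℕ) (ω : P.Om)

theorem U_zero (v : V) : P.U R ω 0 v := trivial

theorem U_succ (j : ℕ) (v : V) : P.U R ω (j + 1) v ↔ P.U R ω j v ∧ ¬ P.T R ω j v := Iff.rfl

theorem T_iff (j : ℕ) (v : V) : P.T R ω j v ↔
    P.U R ω j v ∧ (P.Fo R ω j v ∨ P.coin (ω v) j < R j v (P.cls ω v)) := by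
  cases j with
  | zero =>
    constructor
    · intro h
      exact ⟨trivial, Or.inr h⟩
    · rintro ⟨_, h | h⟩
      · exact h.elim
      · exact h
  | succ j => exact Iff.rfl

theorem T_imp_U (j : ℕ) (v : V) (h : P.T R ω j v) : P.U R ω j v := ((P.T_iff R ω j v).1 h).1

theorem U_iff (j : ℕ) (v : V) : P.U R ω j v ↔ ∀ i < j, ¬ P.T R ω i v := by
  induction j with
  | zero => exact ⟨fun _ i hi => absurd hi (Nat.not_lt_zero i), fun _ => trivial⟩
  | succ j ih =>
    rw [U_succ, ih]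
    constructor
    · rintro ⟨h1, h2⟩ i hi
      rcases Nat.lt_succ_iff_lt_or_eq.1 hi with h | rfl
      · exact h1 i h
      · exact h2
    · intro h
      exact ⟨fun i hi => h i (by omega), h j (by omega)⟩

/-- A vertex is scheduled at most once. -/
theorem T_unique {i j : ℕ} {v : V} (hi : P.T R ω i v) (hj : P.T R ω j v) : i = j := by
  rcases lt_trichotomy i j with h | h | h
  · exact absurd hi ((P.U_iff R ω j v).1 (P.T_imp_U R ω j v hj) i h)
  · exact h
  · exact absurd hj ((P.U_iff R ω i v).1 (P.T_imp_U R ω i v hi) j h)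

/-- The rule for arcs. -/
theorem T_arc {j : ℕ} {u v : V} (h : P.H.Adj u v) (hc : P.cls ω v = P.cls ω u + 1)
    (hu : P.T R ω j u) : ∃ i ≤ j + 1, P.T R ω i v := by
  by_cases hU : P.U R ω (j + 1) v
  · exact ⟨j + 1, le_rfl, (P.T_iff R ω (j + 1) v).2 ⟨hU, Or.inl ⟨u, h, hc, hu⟩⟩⟩
  · rw [U_iff] at hU
    push Not at hU
    obtain ⟨i, hi, h⟩ := hU
    exact ⟨i, hi.le, h⟩

theorem mem_Win {j : ℕ} {g h : ZMod P.N} : h ∈ P.Win j g ↔ ∃ t ≤ j, h = g - (t : ZMod P.N) := by
  unfold Win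
  simp only [Finset.mem_image, Finset.mem_range, Nat.lt_succ_iff]
  constructor
  · rintro ⟨t, ht, rfl⟩
    exact ⟨t, ht, rfl⟩
  · rintro ⟨t, ht, rfl⟩
    exact ⟨t, ht, rfl⟩

theorem card_Win_le (j : ℕ) (g : ZMod P.N) : (P.Win j g).card ≤ j + 1 := by
  unfold Win
  exact Finset.card_image_le.trans (by simp)

theorem self_mem_Win (j : ℕ) (g : ZMod P.N) : g ∈ P.Win j g :=
  P.mem_Win.2 ⟨0, Nat.zero_le _, by simp⟩

theorem Win_mono {i j : ℕ} (h : i ≤ j) (g : ZMod P.N) : P.Win i g ⊆ P.Win j g := by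
  intro x hx
  obtain ⟨t, ht, rfl⟩ := P.mem_Win.1 hx
  exact P.mem_Win.2 ⟨t, ht.trans h, rfl⟩

theorem Win_pred (j : ℕ) (g : ZMod P.N) : P.Win j (g - 1) ⊆ P.Win (j + 1) g := by
  intro x hx
  obtain ⟨t, ht, rfl⟩ := P.mem_Win.1 hx
  refine P.mem_Win.2 ⟨t + 1, by omega, ?_⟩
  push_cast
  ring

/-- `g` is not in the window of `g - 1` of length `j < J`. -/
theorem not_mem_Win {j : ℕ} (hj : j < P.J) (g : ZMod P.N) : g ∉ P.Win j (g - 1) := by
  intro h
  obtain ⟨t, ht, h1⟩ := P.mem_Win.1 h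
  have h2 : ((t + 1 : ℕ) : ZMod P.N) = 0 := by
    push_cast
    linear_combination h1
  rw [ZMod.natCast_eq_zero_iff] at h2
  have h3 := Nat.le_of_dvd (by omega) h2
  have h4 := P.J_lt_N
  omega

end Sys

end Pool.Agent.Helper8.Sey
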