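import Pool.Agent.Helper48.Sey.HALF
import Pool.Agent.Helper94.Sey.SPLIT
import Pool.Agent.Helper3.Sey.GREEDY
import Pool.Agent.Helper50.Sey.CHEB
import Pool.Agent.Helper38.Sey.ASM
import Pool.Agent.Helper56.Sey.PRO
import Pool.Agent.Helper73.Sey.EXCH
import Pool.Agent.Helper15.Sey.WIN
import Pool.Agent.Helper20.Sey.REC
import Pool.Agent.Helper89.Sey.LOCP
import Pool.Agent.Helper39.Sey.LOCB
import Pool.Agent.Helper75.Sey.CORE
import Pool.Agent.Helper16.Sey.MAIN

/-!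
# Project SEY: the final theorem
-/

namespace Pool.Agent.Helper8.Sey

theorem goalMAIN : GoalMAIN := by
  have hWIN : GoalWIN := Pool.Agent.Helper15.Sey.goalWIN
  have hEXCH : GoalEXCH := Pool.Agent.Helper73.Sey.goalEXCH
  have hREC : GoalREC := Pool.Agent.Helper20.Sey.goalREC hEXCH hWIN
  have hCORE : GoalCORE := Pool.Agent.Helper75.Sey.goalCORE Pool.Agent.Helper3.Sey.goalGREEDY
    Pool.Agent.Helper50.Sey.goalCHEB Pool.Agent.Helper38.Sey.goalASM
    Pool.Agent.Helper56.Sey.goalPRO hREC (Pool.Agent.Helper89.Sey.goalLOCP hWIN)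
    Pool.Agent.Helper39.Sey.goalLOCB
  have hSPLIT : GoalSPLIT := Pool.Agent.Helper94.Sey.goalSPLIT Pool.Agent.Helper48.Sey.goalHALF
  exact Pool.Agent.Helper16.Sey.goalMAIN hSPLIT hCORE

end Pool.Agent.Helper8.Sey
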