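import Pool.Agent.Helper51.Girth4.LLL

/-!
# Project SEY (MP_b6b2d3_co): an asymptotic form of Seymour's conjecture for `n ≥ K r`

THEOREM (GoalMAIN below).  For every `ε > 0` there is `K` such that for all `r ≥ K` and all graphs `G` with
`n ≥ K r` vertices and `δ(G) ≥ r n / (r + 1)`, the `⌊(1 - ε) r⌋`-th power of `C_n` is contained
in `G`.

For the complement `H` of `G` (maximum degree at most `Δ = n / (r + 1)`) one needs a cyclic order
of the vertices in which the ends of every edge of `H` are at cyclic distance at least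
(1 - ε) n / Δ`.

Plan.
1. (`GoalHALF`, `GoalSPLIT`) Split `V` into `K` parts arranged in a cycle, of equal sizes, such that every vertex
   has at most `D` neighbours in its own part and in each of the two neighbouring parts;
   `K D ≤ (1 + η) Δ` and `D` bounded in terms of `ε`.
2. (`GoalGREEDY`) A fixed proper colouring `κ` of each part with `D + 1` colours.
3. (`Sys`, `col`, `cls`) A random proper colouring of each part with `q = D + J` colours, whose law is invariant under
   all permutations of the colours. The `K q` colour classes are arranged in a cycle.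
4. (`U`, `T`) The block process: `J` time steps; a vertex `v` of class `g` is forced at time `j + 1` if it has
   a neighbour in class `g - 1` scheduled at time `j`; otherwise it is scheduled by an independent
   coin, tuned so that `Pr(T j v, cls v = g) = 1 / (q J)` up to rounding.
5. (`GoalCHEB`) All blocks have nearly the same size for most choices; the local lemma over the
   parts gives a choice for which all blocks are large (`GoalCORE`).
6. (`GoalASM`) The order by class, and by decreasing time inside a class, is the required order.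
-/

namespace Pool.Agent.Helper8.Sey

open Pool.Agent.Helper41.Girth4 (Pr)

/-- Parts `0, ..., K - 1` are arranged in a cycle; `near K a b`: equal or consecutive parts. -/
def near (K a b : ℕ) : Prop :=
  a = b ∨ b = a + 1 ∨ a = b + 1 ∨ (a = 0 ∧ b + 1 = K) ∨ (b = 0 ∧ a + 1 = K)

/-- Every vertex has at most `D` neighbours in each part near to its own part. -/
def NearBd {V : Type} (H : SimpleGraph V) (K : ℕ) (part : V → ℕ) (D : ℕ) : Prop :=
  (∀ v, part v < K) ∧
  ∀ v m, m < K → near K (part v) m → Nat.card {u // H.Adj v u ∧ part u = m} ≤ D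

/-- PACKET HALF (one halving step).

PROOF. Every part `P_m = {v : part v = m}` gets an involution `μ` with at most one fixed point; so there is
`μ : V → V`, `μ (μ v) = v`, `part (μ v) = part v`, at most one fixed point in every part. Choose a
representative `rep v ∈ {v, μ v}` with `rep (μ v) = rep v` (e.g. the smaller one for some
enumeration of `V`). For `ω : V → Bool` put `side v = ω (rep v)` if `v = rep v`, and
`side v = !ω (rep v)` otherwise. So if `μ v ≠ v` then exactly one of `v, μ v` has `side = true`;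
hence in every part of size `≥ a` at least `a / 2` (floor) vertices have `side = true` and at least
`a / 2` have `side = false`. The new part is `part' v = 2 * part v + (if side v then 1 else 0)`.
Since `near (2K) a' b'` implies `near K (a' / 2) (b' / 2)` (omega), it is enough that for all `v` and all
`m < K` with `near K (part v) m`, the set `N = {u : H.Adj v u, part u = m}` has at most `D'`
elements with `side = true` and at most `D'` with `side = false`.

Bad event `A (v, m)` (`m : Fin K`, for `¬ near` it is `False`): one of these two counts is `> D'`.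
It depends only on `ω` on the set `S (v, m) = rep '' N` (empty if not near). Let
`d = |N| ≤ D`, `X` = number of elements of `N` with `side = true`. `2 X - d = ∑_{x ∈ rep '' N} Y_x`
where `Y_x = 0` if both `x` and `μ x ≠ x` are in `N`, otherwise `Y_x = ± 1`
according to `ω x` (these `Y_x` are independent and symmetric). So with `θ ≥ 0`:
`E exp (θ (2 X - d)) ≤ cosh(θ)^d ≤ exp (θ² D / 2)` (`Real.cosh_le_exp_half_sq`), and the same
for `-(2X - d)`. If `X > D'` then `2 X - d ≥ 2 D' - D =: 2 λ`, so by Markov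
`Pr (X > D') ≤ exp (- 2 λ θ + θ² D / 2)`, with `θ = 2 λ / D`: `≤ exp (- 2 λ² / D)`, where
`λ = D' - D / 2`. Likewise for `d - X > D'`. So `Pr (A (v,m)) ≤ p := 2 exp (- 2 λ² / D)`.

Dependencies: if `S (v, m)` and `S (v', m')` are not disjoint, then `m = m'` and there are
`u ∈ N (v, m)` and `w ∈ {u, μ u}` with `H.Adj w v'` and `part v'` near `m = part w`; the number of
such (v', m')` is at most `D * 2 * (3 D) = 6 D²` (near parts of `m`: at most three, each with at
most `D` neighbours of `w`; `near` is symmetric).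
Apply `Pool.Agent.Helper51.Girth4.stmtLLL` with `I = V`, `J = V × Fin K`, `L = Bool`,
`d = 6 * D ^ 2` : `4 p d = 48 D² exp (- 2 λ² / D) ≤ 1`. -/
def GoalHALF : Prop :=
  ∀ (V : Type) [Fintype V] (H : SimpleGraph V) (K : ℕ) (part : V → ℕ) (D D' a : ℕ),
    1 ≤ D → D ≤ 2 * D' → NearBd H K part D →
    (∀ m, m < K → a ≤ Nat.card {v // part v = m}) →
    48 * (D : ℝ) ^ 2 * Real.exp (-(2 * ((D' : ℝ) - D / 2) ^ 2 / D)) ≤ 1 →
    ∃ part' : V → ℕ, (∀ v, part' v = 2 * part v ∨ part' v = 2 * part v + 1) ∧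
      NearBd H (2 * K) part' D' ∧
      ∀ m, m < 2 * K → a / 2 ≤ Nat.card {v // part' v = m}

/-- PACKET SPLIT (iterated halving): prove `GoalHALF → GoalSPLIT`.

PROOF. WLOG `η ≤ 1` (replace `η` by `min η 1`). Let `Δ ≥ M0`, `M0` large (in terms of `η` and `M1`). Let `T` be the largest integer with `M0 ≤ Δ / 2^T`
(real division), `x = Δ / 2^T ∈ [M0, 2 M0)`. For `s = 0, ..., T` put `t = T - s`,
`β_s = η' (3/4)^t` with `η' = η / 2` and the degree bound
`D_s = ⌈(Δ / 2^s) (1 + β_s)⌉ = ⌈x 2^t (1 + β_s)⌉` for `s ≥ 1`, `D_0 = Δ` (or also the ceiling).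
Start: `K = 1`, `part = 0`, all degrees `≤ Δ`. Step `s → s + 1` (`t = T - s ≥ 1`) by
`GoalHALF` with `D = D_s`, `D' = D_{s+1}`:
`D' - D / 2 ≥ x 2^(t-1) (1 + β_{s+1}) - x 2^(t-1) (1 + β_s) - 1 / 2
   = x 2^(t-1) (η'/4) (3/4)^(t-1) - 1/2 ≥ (x η' / 8) (3/2)^(t-1)` for `M0 ≥ 8/η'` or so,
`D ≤ 3 x 2^t`, so that the exponent `2 (D' - D/2)² / D ≥ c (9/8)^(t-1) x` with `c = c(η) > 0`, while
`48 D² ≤ 432 x² 4^t`. So it is enough that `432 x² 4^t exp (- c x (9/8)^(t-1)) ≤ 1` for all
`t ≥ 1`, `x ≥ M0`: true for `M0` large (e.g. use `exp y ≥ y^k / k!`-type bounds with `k = 20`: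
(9/8)^20 > 4`; or `exp (c x (9/8)^(t-1)) ≥ exp (c x (1 + (t-1)/8))` by Bernoulli
(9/8)^(t-1) ≥ 1 + (t-1)/8`, and `exp (c x / 8) ≥ 4` kills `4^(t-1)`, the rest is
`1728 x² ≤ exp (c x)`).
After `T` steps: `2^T` parts, bound `D_T = ⌈x (1 + η')⌉ ≤ 5 M0`, `≥ M0`;
`2^T D_T ≤ 2^T (x (1 + η') + 1) ≤ Δ (1 + η') + Δ / M0 ≤ (1 + η) Δ`; `2^T M0 ≤ Δ`;
sizes `≥ n / 2^T` (natural division, since (n / 2^s) / 2 = n / 2^(s+1)`). -/
def GoalSPLIT : Prop :=
  ∀ (η : ℝ) (M1 : ℕ), 0 < η → ∃ M0 : ℕ, M1 ≤ M0 ∧ 1 ≤ M0 ∧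
    ∀ (V : Type) [Fintype V] (H : SimpleGraph V) (Δ : ℕ), M0 ≤ Δ →
      (∀ v, Nat.card {u // H.Adj v u} ≤ Δ) →
      ∃ (K D : ℕ) (part : V → ℕ), 1 ≤ K ∧ M0 ≤ D ∧ D ≤ 5 * M0 ∧ K * M0 ≤ Δ ∧
        ((K : ℝ) * D ≤ (1 + η) * Δ) ∧ NearBd H K part D ∧
        ∀ m, m < K → Fintype.card V / K ≤ Nat.card {v // part v = m}

/-- PACKET GREEDY: a graph all of whose degrees are at most `D` has a proper colouring with
`D + 1` colours; here for the graph `H'` of the edges of `H` inside the parts. Easy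
induction on the number of vertices (or look for greedy colouring in Mathlib); the colouring
`κ` has values `0, ..., D`. -/
def GoalGREEDY : Prop :=
  ∀ (V : Type) [Fintype V] (H : SimpleGraph V) (K : ℕ) (part : V → ℕ) (D : ℕ),
    NearBd H K part D →
    ∃ κ : V → ℕ, (∀ v, κ v ≤ D) ∧ ∀ u v, H.Adj u v → part u = part v → κ u ≠ κ v

/-- PACKET CHEB (Chebyshev for locally dependent events).

PROOF. Let `X ω` be the number of `s ∈ S` with `A s ω`, `μ = E X = ∑ Pr (A s) ≥ p |S|`.
`Var X = ∑_{s, t} (Pr (A s ∧ A t) - Pr (A s) Pr (A t))`; the terms with disjoint `Reg s`, `Reg t`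
vanish (`Pool.Agent.Helper51.Girth4.Pr_indep`) and the others are at most `Pr (A s ∧ A t) ≤ 1`, so
`Var X ≤ |S| R`. If `X ≤ (1 - δ) p |S|` then `μ - X ≥ δ p |S|`; Chebyshev gives
`Pr ≤ |S| R / (δ p |S|)² = R / (δ² p² |S|)`. (`S` is assumed nonempty.) -/
def GoalCHEB : Prop :=
  ∀ (V L : Type) [Fintype V] [Finite L] [Nonempty L] (S : Finset V) (A : V → (V → L) → Prop)
    (Reg : V → Set V) (R : ℕ) (p δ : ℝ), S.Nonempty → 0 < p → 0 < δ →
    (∀ s ω ω', (∀ i ∈ Reg s, ω i = ω' i) → A s ω → A s ω') →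
    (∀ s ∈ S, Nat.card {t // ¬ Disjoint (Reg s) (Reg t)} ≤ R) →
    (∀ s ∈ S, p ≤ Pr (A s)) →
    Pr (fun ω => (Nat.card {s // s ∈ S ∧ A s ω} : ℝ) ≤ (1 - δ) * p * S.card)
      ≤ R / (δ ^ 2 * p ^ 2 * S.card)

/-- PACKET ASM (assembly).

PROOF. Let `n = |V|`, `key v = (C v).val * (J + 1) + (J - τ v)` and let `pos : V → Fin n` be a
bijection which is monotone for `key` (sort the vertices by `key`, ties arbitrarily): `key u < key v → pos u < pos v`
and `pos u ≤ pos v → key u ≤ key v`. Let `σ` be the inverse of `pos`. Let `u, v` be adjacent in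
`H`, `i = pos u`, `k = pos v`. Then `d = (k + n - i) % n` is the number of `w` (including `u`,
excluding `v`) with `pos w` in the cyclic interval `[i, k)`. We need `d > (J - 2) m0`, i.e. at
least (J - 2) m0` vertices `w ≠ u` in the open cyclic interval.
Case 1: `C v = C u + 1`. The blocks (C u, j)` with `j < τ u` come after `u`
(inside class `C u`), and the blocks (C v, j)` with `τ v < j < J` come before `v` inside the class
`C v`, which is the cyclically next class (if `C u` is the last class, `C v` is the first one: wrap around). All these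
blocks have at least `m0` elements, are disjoint, do not contain `u` or `v`, and lie in the
open cyclic interval. Since `τ v ≤ τ u + 1`, their number is at least
`min (τ u) J + (J - 1 - (τ u + 1))⁺ ≥ J - 2`.
Case 2: `C v ≠ C u`, `C v ≠ C u + 1`. Then the whole class `C u + 1` (`J` blocks of size
`≥ m0`) lies in the open cyclic interval.
(`C u ≠ C v` always, by hypothesis; `N ≥ 2`.) -/
def GoalASM : Prop :=
  ∀ (V : Type) [Fintype V] (H : SimpleGraph V) (N J m0 : ℕ) (C : V → ZMod N) (τ : V → ℕ),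
    2 ≤ N → 2 ≤ J → (∀ v, τ v ≤ J) → (∀ u v, H.Adj u v → C u ≠ C v) →
    (∀ u v, H.Adj u v → C v = C u + 1 → τ v ≤ τ u + 1) →
    (∀ g : ZMod N, ∀ j < J, m0 ≤ Nat.card {v // C v = g ∧ τ v = j}) →
    ∃ σ : Fin (Fintype.card V) ≃ V, ∀ i k : Fin (Fintype.card V), H.Adj (σ i) (σ k) →
      (J - 2) * m0 < (k.val + Fintype.card V - i.val) % Fintype.card V

/-! ### The random colouring and the block process -/

/-- The data of the process. -/
structure Sys (V : Type) where
  /-- the graph -/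
  H : SimpleGraph V
  /-- number of parts -/
  K : ℕ
  /-- degree bound to near parts -/
  D : ℕ
  /-- number of time steps -/
  J : ℕ
  /-- number of values of a coin -/
  L : ℕ
  /-- the part of a vertex -/
  part : V → ℕ
  /-- a fixed proper colouring of each part -/
  κ : V → ℕ
  hK : 1 ≤ K
  hD : 1 ≤ D
  hJ : 2 ≤ J
  hL : 1 ≤ L
  hnear : NearBd H K part D
  hκ : ∀ v, κ v ≤ D
  hκH : ∀ u v, H.Adj u v → part u = part v → κ u ≠ κ v

namespace Sys

variable {V : Type} (P : Sys V)

/-- number of colours in a part -/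
def q : ℕ := P.D + P.J

/-- number of classes -/
def N : ℕ := P.K * P.q

instance : NeZero P.q := ⟨by have := P.hD; unfold q; omega⟩

instance : NeZero P.N := ⟨by
  have h1 := P.hD
  have h2 := P.hK
  unfold N q
  positivity⟩

instance : NeZero P.L := ⟨by have := P.hL; omega⟩

/-- labels: a permutation of the colours (the priority list `0 ↦ first colour, ...`) and `J` coins -/
abbrev Lab : Type := Equiv.Perm (Fin P.q) × (Fin P.J → Fin P.L)

/-- the outcomes -/
abbrev Om : Type := V → P.Lab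

/-- the value of the coin of time `j` (and `L`, i.e. never, if `j ≥ J`) -/
def coin (x : P.Lab) (j : ℕ) : ℕ := if h : j < P.J then ((x.2 ⟨j, h⟩ : Fin P.L) : ℕ) else P.L

open Classical in
/-- the first colour of the list `π` which is not in `X` -/
noncomputable def pick {q : ℕ} [NeZero q] (π : Equiv.Perm (Fin q)) (X : Fin q → Prop) : Fin q :=
  if h : (Finset.univ.filter fun t : Fin q => ¬ X (π t)).Nonempty then
    π ((Finset.univ.filter fun t : Fin q => ¬ X (π t)).min' h)
  else π 0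

/-- one round of the colouring -/
noncomputable def colF (ω : P.Om) (c : V → Fin P.q) : V → Fin P.q := fun v =>
  pick (ω v).1 (fun a => ∃ u, P.H.Adj u v ∧ P.part u = P.part v ∧ P.κ u < P.κ v ∧ c u = a)

/-- the colouring -/
noncomputable def col (ω : P.Om) : V → Fin P.q :=
  (P.colF ω)^[P.D + 1] (fun v => (ω v).1 0)

/-- class number (l, a)` -/
def cl (l : ℕ) (a : Fin P.q) : ZMod P.N := ((l * P.q + a : ℕ) : ZMod P.N)

/-- the class of a vertex -/
noncomputable def cls (ω : P.Om) (v : V) : ZMod P.N := P.cl (P.part v) (P.col ω v)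

/-- The process for thresholds `R`: the pair (unscheduled before time `j`, scheduled at time `j`). -/
noncomputable def proc (R : ℕ → V → ZMod P.N → ℕ) (ω : P.Om) : ℕ → (V → Prop) × (V → Prop)
  | 0 => (fun _ => True, fun v => P.coin (ω v) 0 < R 0 v (P.cls ω v))
  | j + 1 =>
    (fun v => (proc R ω j).1 v ∧ ¬ (proc R ω j).2 v,
     fun v => ((proc R ω j).1 v ∧ ¬ (proc R ω j).2 v) ∧
      ((∃ u, P.H.Adj u v ∧ P.cls ω v = P.cls ω u + 1 ∧ (proc R ω j).2 u) ∨
        P.coin (ω v) (j + 1) < R (j + 1) v (P.cls ω v)))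

/-- unscheduled before time `j` -/
def U (R : ℕ → V → ZMod P.N → ℕ) (ω : P.Om) (j : ℕ) (v : V) : Prop := (P.proc R ω j).1 v

/-- scheduled at time `j` -/
def T (R : ℕ → V → ZMod P.N → ℕ) (ω : P.Om) (j : ℕ) (v : V) : Prop := (P.proc R ω j).2 v

/-- forced at time `j` -/
def Fo (R : ℕ → V → ZMod P.N → ℕ) (ω : P.Om) : ℕ → V → Prop
  | 0, _ => False
  | j + 1, v => ∃ u, P.H.Adj u v ∧ P.cls ω v = P.cls ω u + 1 ∧ P.T R ω j u

/-- `ω` and `ω'` agree on the classes of `W`: same members, with the same coins. -/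
def Agree (W : Finset (ZMod P.N)) (ω ω' : P.Om) : Prop :=
  ∀ w, (P.cls ω w ∈ W ∨ P.cls ω' w ∈ W) → P.cls ω w = P.cls ω' w ∧ (ω w).2 = (ω' w).2

/-- the window `g, g - 1, ..., g - j` -/
def Win (j : ℕ) (g : ZMod P.N) : Finset (ZMod P.N) :=
  (Finset.range (j + 1)).image fun t : ℕ => g - (t : ZMod P.N)

end Sys

/-- PACKET PRO (the colouring is proper).

PROOF. If `part u ≠ part v` the classes are different (`cl l a = cl l' a'` with `l, l' < K` implies
`l = l'` and `a = a'`, since `l q + a < K q`). If `part u = part v` then `κ u ≠ κ v`, say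
`κ u < κ v`. First, `col` is a fixed point of `colF`: by induction on `t`,
(colF ω)^[t'] c0 w = (colF ω)^[t] c0 w` for all `w` with `κ w < t ≤ t'` (`colF ω c w` depends only on the
values of `c` at `u` with `κ u < κ w`), and `κ w ≤ D`, `col = (colF ω)^[D + 1] c0`. Then
`col ω v = pick π_v X` with `X a ↔ ∃ u, H.Adj u v ∧ part u = part v ∧ κ u < κ v ∧ col ω u = a`, which
holds for at most `D < q` colours (`NearBd`), so that the set in `pick` is nonempty and `¬ X (col ω v)`; but
`X (col ω u)`. -/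
def GoalPRO : Prop :=
  ∀ (V : Type) [Fintype V] (P : Sys V) (ω : P.Om) (u v : V), P.H.Adj u v →
    P.cls ω u ≠ P.cls ω v

/-- PACKET EXCH (exchangeability of the colours).

PROOF. For a part `l` and a permutation `s` of the colours let `act ω` be the outcome
`w ↦ if part w = l then (s * (ω w).1, (ω w).2) else ω w`. It is a bijection of `Om`, and (`pick (s * π) (s X) = s (pick π X)`,
induction over the iterates of `colF`) `col (act ω) w = s (col ω w)` if `part w = l`, and
`col (act ω) w = col ω w` otherwise.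
Let `l = part v`. If `g` is not of the form `cl l a`, the left side is `0`. Let `g = cl l a`, and
let `B` be the set of the colours `b` with `cl l b ∉ W`; `cl l` is injective, so
`|B| ≥ q - |W| ≥ q - J = D`, and `a ∈ B`. For `b ∈ B` take `s = Equiv.swap a b`: then `Agree W ω (act ω)`
(a vertex of part `l` whose class is in `W` has a colour different from `a` and `b`), so
`E ω ↔ E (act ω)`, and `cls ω v = cl l a ↔ cls (act ω) v = cl l b`. Hence
`Pr (E ω ∧ cls ω v = cl l b) = Pr (E ω ∧ cls ω v = g)` (`Pr_equiv`). The events for different `b` are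
disjoint, their probabilities have sum at most `Pr E`.
The second part: `W = ∅`, `E = True`: all `q` colours have the same probability, and the sum is `1`. -/
def GoalEXCH : Prop :=
  ∀ (V : Type) [Fintype V] (P : Sys V),
    (∀ (E : P.Om → Prop) (W : Finset (ZMod P.N)), W.card ≤ P.J →
      (∀ ω ω', P.Agree W ω ω' → E ω → E ω') → ∀ (v : V) (g : ZMod P.N), g ∉ W →
      (P.D : ℝ) * Pr (fun ω : P.Om => E ω ∧ P.cls ω v = g) ≤ Pr E) ∧
    ∀ (v : V) (a : Fin P.q), Pr (fun ω : P.Om => P.cls ω v = P.cl (P.part v) a) = 1 / P.q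

/-- PACKET WIN (the block process looks only at a window of classes).

PROOF. Induction on `j`, for all `g`. `Win j g ⊆ Win (j + 1) g` and `Win j (g - 1) ⊆ Win (j + 1) g`.
If `cls ω v = g ∈ Win j g` then `cls ω' v = g` and the coins of `v` are the same. `U (j+1) v ↔ U j v ∧ ¬ T j v`
(definition), and a vertex `u` with `cls ω v = cls ω u + 1` has `cls ω u = g - 1`. -/
def GoalWIN : Prop :=
  ∀ (V : Type) [Fintype V] (P : Sys V) (R : ℕ → V → ZMod P.N → ℕ) (j : ℕ) (g : ZMod P.N)
    (ω ω' : P.Om), P.Agree (P.Win j g) ω ω' → ∀ v, P.cls ω v = g →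
    (P.U R ω j v ↔ P.U R ω' j v) ∧ (P.T R ω j v ↔ P.T R ω' j v)

/-- PACKET REC (the tuned thresholds): prove `GoalEXCH → GoalWIN → GoalREC`.

PROOF. Let `t = 1 / (q J)`, `e = 1 / (q L)`. By induction on `j0 ≤ J`: there is `R` such that the bounds
hold for all `j < j0`. (`proc R ω j` depends only on `R i` with `i ≤ j`, so that for the step only `R j0` is changed,
and `U j0`, `Fo j0` do not depend on `R j0`.) Let `j = j0 < J`, `g = cl (part v) a`,
`A = Pr (U j v ∧ Fo j v ∧ cls v = g)`, `B = Pr (U j v ∧ ¬ Fo j v ∧ cls v = g)`.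
(1) `A ≤ t`. For `j = 0`, `Fo` is `False`. For `j = i + 1`: `Fo j v ∧ cls v = g` implies that there is `u` with `H.Adj u v`,
`cls u = g - 1` and `T i u`. The class `g - 1` is in a part `m` near to `part v`
(`g = cl l a`; if `a > 0` then `g - 1 = cl l (a - 1)`, if `a = 0` then `g - 1 = cl l' (q - 1)` with `l' = l - 1`,
or `l' = K - 1` if `l = 0`), so that there are at most `D` candidates `u`. For each of them let `E ω` be
`cls ω u = g - 1 ∧ T i u`; by `GoalWIN` it is invariant under `Agree W`, `W = Win i (g - 1)`,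
`|W| ≤ i + 1 ≤ J`, `g ∉ W` since `i + 1 < J < N`. By `GoalEXCH`, `D Pr (E ∧ cls v = g) ≤ Pr E ≤ t` (the bound
for `i < j`, or `0` if `g - 1` is not a class of the part of `u`). Sum over the at most `D` candidates: `A ≤ t`.
(2) `A + B = Pr (U j v ∧ cls v = g) = 1 / q - ∑_{i < j} Pr (T i v ∧ cls v = g) ≥ 1 / q - j t ≥ t`,
since `U (i + 1) = U i ∧ ¬ T i` and `T i → U i`.
(3) `T j v ↔ U j v ∧ (Fo j v ∨ coin j < R j v (cls v))`; the coin of time `j` of `v` is independent of
`U j`, `Fo j`, `cls` (these depend only on the permutations and the coins of times `< j`), so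
`Pr (T j v ∧ cls v = g) = A + B min (R j v g) L / L`. Take `R j v g = ⌊L (t - A) / B⌋` (if `B > 0`; it is
`≤ L` by (2)). Then `t - e ≤ t - B / L ≤ Pr ≤ t` since `B ≤ Pr (cls v = g) = 1 / q`. If `B = 0` then `A = t` by (1), (2).
(For a given class `g` which is not in the part of `v`, `R j v g` is irrelevant.) -/
def GoalREC : Prop :=
  ∀ (V : Type) [Fintype V] (P : Sys V), ∃ R : ℕ → V → ZMod P.N → ℕ,
    ∀ j < P.J, ∀ (v : V) (a : Fin P.q),
      1 / ((P.q : ℝ) * P.J) - 1 / ((P.q : ℝ) * P.L) ≤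
          Pr (fun ω : P.Om => P.T R ω j v ∧ P.cls ω v = P.cl (P.part v) a) ∧
        Pr (fun ω : P.Om => P.T R ω j v ∧ P.cls ω v = P.cl (P.part v) a) ≤
          1 / ((P.q : ℝ) * P.J)

/-- PACKET LOCP (locality with respect to parts): prove `GoalWIN → GoalLOCP`.

PROOF. `col ω` on a part depends only on `ω` on this part (induction over the iterates of `colF`). Let `v` be in part `l`,
`g = cls ω v = cl l a`, `j < J`. The classes of `Win j g` belong to part `l` or to the cyclically previous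
part, since `j < J < q`: if `a ≥ t` then `g - t = cl l (a - t)`, otherwise it is `cl l' (q + a - t)` with
`l' = l - 1` or (if `l = 0`) `l' = K - 1`. So `Agree (Win j g) ω ω'`: a vertex `w` with `cls ω w` or
`cls ω' w` in the window has `part w` equal to `l` or the previous part, so `ω w = ω' w`, and
`ω`, `ω'` agree on the whole part of `w`, so `cls ω w = cls ω' w`. Use `GoalWIN`. -/
def GoalLOCP : Prop :=
  ∀ (V : Type) [Fintype V] (P : Sys V) (R : ℕ → V → ZMod P.N → ℕ) (l : ℕ) (ω ω' : P.Om), l < P.K →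
    (∀ w, (P.part w = l ∨ P.part w + 1 = l ∨ (l = 0 ∧ P.part w + 1 = P.K)) → ω w = ω' w) →
    ∀ v, P.part v = l → P.cls ω v = P.cls ω' v ∧ ∀ j < P.J, P.T R ω j v → P.T R ω' j v

/-- PACKET LOCB (locality with respect to balls).

PROOF. Let `u ∼ v` mean `H.Adj u v ∧ near K (part u) (part v)`; every vertex has at most `3 D` such neighbours
(there are at most three near parts). Let `B_0 (v) = {v}`, `B_(t+1) (v) = ⋃_{w ∈ B_t (v)} ({w} ∪ {u : u ∼ w})`;
`|B_t (v)| ≤ (3 D + 1)^t`, and `w ∈ B_t (v) ↔ v ∈ B_t (w)`, `B_t (B_s (v)) ⊆ B_(s+t) (v)`. Put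
`Reg v = B_ρ (v)`, `ρ = D + 1 + J`. If `ω = ω'` on `B_t (v)` then the `t`-th iterates of `colF` agree at `v`
(induction on `t`: neighbours in the same part are near), so that `cls` agrees if `t ≥ D + 1`. If
`ω = ω'` on `B_(D + 1 + j) (v)` then `U j v` and `T j v` agree (induction on `j`; a vertex `u` with
`H.Adj u v` and `cls ω v = cls ω u + 1` has `near K (part u) (part v)`, for both `ω` and `ω'`). Dependencies: if
`B_ρ (v)` and `B_ρ (t)` intersect then `t ∈ B_(2ρ) (v)`. -/
def GoalLOCB : Prop :=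
  ∀ (V : Type) [Fintype V] (P : Sys V) (R : ℕ → V → ZMod P.N → ℕ), ∃ Reg : V → Set V,
    (∀ v (ω ω' : P.Om), (∀ w ∈ Reg v, ω w = ω' w) →
      P.cls ω v = P.cls ω' v ∧ ∀ j < P.J, P.T R ω j v → P.T R ω' j v) ∧
    ∀ v, Nat.card {t // ¬ Disjoint (Reg v) (Reg t)} ≤ (3 * P.D + 1) ^ (2 * (P.D + 1 + P.J))

/-- PACKET CORE: prove
`GoalGREEDY → GoalCHEB → GoalASM → GoalPRO → GoalREC → GoalLOCP → GoalLOCB → GoalCORE`.

PROOF. WLOG `δ < 1` (replace `δ` by `min δ (1/2)`). Let `q = D + J`, `δ1 = δ / 2`, `L ≥ J / δ1`, so that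
`p := 1 / (q J) - 1 / (q L) ≥ (1 - δ1) / (q J) > 0`; `κ` by `GoalGREEDY`; this gives `P : Sys V`. Take `R` from `GoalREC`.
For `l : Fin K` let `S_l = {v : part v = l}`, `|S_l| ≥ s`. For a colour `a` and `j < J`, `GoalCHEB` with `A v ω := T R ω j v ∧ cls ω v = cl (part v) a`
and `Reg` from `GoalLOCB`, `Rr = (3 D + 1)^(2 (D + 1 + J))`, gives: the probability that at most
(1 - δ1) p |S_l|` vertices `v` of `S_l` have `T j v`, `cls v = cl l a` is at most
`Rr / (δ1² p² s)`. Let `bad_l` be the event that this happens for some `a`, `j < J`: its probability is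
at most `q J Rr / (δ1² p² s) ≤ 1 / 12` if `s ≥ N0` (`Pr_exists_le`). `bad_l` depends only on `ω` on `W_l = {w : part w = l ∨ part w + 1 = l ∨ (l = 0 ∧ part w + 1 = K)}`
(`GoalLOCP`), and each `W_l` meets at most three `W_l'`. The local lemma `stmtLLL` (`I = V`, `J = Fin K`, `L = Lab`, `d = 3`, `p = 1/12`)
gives `ω` without bad events. Now use `GoalASM` with `N = K q`, `C = cls ω`,
`τ v` = the `j < J` with `T j v`, if there is one (it is unique: `T j v → U j v`, and `U (i + 1) v → U i v ∧ ¬ T i v`), and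
`τ v = J` otherwise. Proper: `GoalPRO`. Arcs: if `H.Adj u v`, `C v = C u + 1`, `τ u = j ≤ J - 2` then `T j u`, so
either `¬ U (j+1) v`, i.e. `T i v` for some `i ≤ j`, or `U (j + 1) v` and then `T (j + 1) v` by definition; so `τ v ≤ j + 1`.
If `τ u ≥ J - 1`, `τ v ≤ J ≤ τ u + 1`. Blocks: every `g : ZMod N` is `cl l a` with `l < K`; the block
(g, j)` has more than (1 - δ1) p s ≥ (1 - δ1)² s / (q J) ≥ (1 - δ) s / (q J)` elements; `m0 = ⌈(1 - δ) s / (q J)⌉₊`. -/
def GoalCORE : Prop :=
  ∀ (D J : ℕ) (δ : ℝ), 1 ≤ D → 2 ≤ J → 0 < δ → ∃ N0 : ℕ,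
    ∀ (V : Type) [Fintype V] (H : SimpleGraph V) (K : ℕ) (part : V → ℕ) (s : ℕ), 1 ≤ K →
      NearBd H K part D → N0 ≤ s → (∀ m, m < K → s ≤ Nat.card {v // part v = m}) →
      ∃ σ : Fin (Fintype.card V) ≃ V, ∀ i k : Fin (Fintype.card V), H.Adj (σ i) (σ k) →
        ((J - 2 : ℕ) : ℝ) * ((1 - δ) * s / (((D : ℝ) + J) * J)) ≤
          (((k.val + Fintype.card V - i.val) % Fintype.card V : ℕ) : ℝ)

/-- PACKET MAIN: prove `GoalSPLIT → GoalCORE → GoalMAIN`.

PROOF. If `ε ≥ 1` the condition is never satisfied (the distance is `≥ 1` for `k ≠ i`, and `r > 0`), so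
any bijection works. Let `ε < 1`, `J ≥ 8 / ε`, `J ≥ 3`, `δ = η = ε / 8`, `M1 ≥ J / η`; `M0` from `GoalSPLIT`; `N0` =
the maximum of the `N0` of `GoalCORE` for `D ≤ 5 M0`; `K = max (2 M0) (N0 + ⌈8/ε⌉ + 3)`. Let
`r ≥ K`, `n ≥ K r`, `H = Gᶜ`, `Δ = n / (r + 1)` (natural division) `≥ M0`. Every vertex has degree at most `n - 1 - δ(G)` in `H` and
(r + 1) (n - δ(G)) ≤ n`, so `≤ Δ`. `GoalSPLIT` gives `K'` parts, `D`, `M0 ≤ D ≤ 5 M0`. Let `s = n / K'` (natural
division). `K' M0 (r + 1) ≤ Δ (r + 1) ≤ n`, so `s ≥ M0 (r + 1) ≥ N0`, and `s ≥ n / K' - 1 ≥ (1 - δ) n / K'` (real) since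
`n / K' ≥ r + 1 ≥ 1 / δ`. `GoalCORE` gives `σ` with
`distance ≥ (J - 2) (1 - δ) s / ((D + J) J) ≥ (1 - 2 / J) (1 - δ)² n / (K' (D + J))`. Here
`K' J ≤ η K' M1 ≤ η K' M0 ≤ η Δ`, so `K' (D + J) ≤ (1 + 2 η) Δ`, and `n / Δ ≥ r + 1`. So the distance between
nonadjacent vertices of `G` is at least (1 - ε/4) (1 - ε/8)² (r + 1) / (1 + ε/4) ≥ (1 - ε) (r + 1) > (1 - ε) r`. -/
def GoalMAIN : Prop :=
  ∀ ε : ℝ, 0 < ε → ∃ K : ℕ, ∀ r : ℕ, K ≤ r →
    ∀ (V : Type) [Fintype V] [DecidableEq V] (G : SimpleGraph V) [DecidableRel G.Adj],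
      K * r ≤ Fintype.card V → r * Fintype.card V ≤ (r + 1) * G.minDegree →
      ∃ σ : Fin (Fintype.card V) ≃ V, ∀ i k : Fin (Fintype.card V), k ≠ i →
        (((k.val + Fintype.card V - i.val) % Fintype.card V : ℕ) : ℝ) ≤ (1 - ε) * r →
          G.Adj (σ i) (σ k)

end Pool.Agent.Helper8.Sey
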